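import Pool.Agent.U796.AP.Range

/-!
# The values of `a` at odd integers are exactly the almost perfect numbers
-/

namespace Pool.Agent.Results.MP_c5ead3_nt.AlmostPerfectRange

open Pool.Agent.U796.AP

theorem result :
    a '' {n | 3 ≤ n ∧ Odd n} = {k | 1 ≤ k ∧ sg k = 2 * k - 1} ∧
    ((∀ n, 2 ≤ n → a n = 1 ∨ a n = 3 ∨ ∃ j, a n = 2 ^ j) ↔
      ∀ k, 1 ≤ k → sg k = 2 * k - 1 → ∃ j, k = 2 ^ j) := by
  have hodd : ∀ n, 2 ≤ n → Odd n → 1 ≤ a n ∧ sg (a n) = 2 * a n - 1 := by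
    intro n h2 hn
    obtain ⟨j, _, _, h, _⟩ := structure_odd hn h2
    exact ⟨(a_mem h2).1, by omega⟩
  refine ⟨?_, ?_, ?_⟩
  · ext k
    simp only [Set.mem_image, Set.mem_setOf_eq]
    constructor
    · rintro ⟨n, ⟨h3, hn⟩, rfl⟩
      exact hodd n (by omega) hn
    · rintro ⟨h1, h2⟩
      obtain ⟨n, hn2, hn, _, ha⟩ := exists_odd k h1 (by omega) 0
      refine ⟨n, ⟨?_, hn⟩, ha⟩
      obtain ⟨c, hc⟩ := hn
      omega
  · intro h k h1 h2
    obtain ⟨n, hn2, hn, _, ha⟩ := exists_odd k h1 (by omega) 0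
    rcases h n hn2 with h3 | h3 | h3
    · exact ⟨0, by rw [← ha, h3]; rfl⟩
    · exfalso
      rw [ha] at h3
      rw [h3, sg_prime Nat.prime_three] at h2
      norm_num at h2
    · rw [ha] at h3; exact h3
  · intro h n h2
    rcases Nat.even_or_odd n with he | ho
    · have h3 : a n ≤ 3 := by
        rcases even_mem he h2 with h4 | h4
        · exact (a_le h4).trans (by norm_num)
        · exact a_le h4
      have h1 := (a_mem h2).1
      have h5 : a n = 1 ∨ a n = 2 ∨ a n = 3 := by omega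
      rcases h5 with h5 | h5 | h5
      · exact Or.inl h5
      · exact Or.inr (Or.inr ⟨1, by rw [h5]; rfl⟩)
      · exact Or.inr (Or.inl h5)
    · obtain ⟨h4, h5⟩ := hodd n h2 ho
      exact Or.inr (Or.inr (h _ h4 h5))

end Pool.Agent.Results.MP_c5ead3_nt.AlmostPerfectRange
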