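import Pool.Agent.U796.AP.Base

/-!
# An explicit formula for the least deficient multiplier of an odd integer
-/

namespace Pool.Agent.Results.MP_c5ead3_nt.ExplicitFormula

open Pool.Agent.U796.AP

theorem prime_factor_mem {n p i : ℕ} (hn : Odd n) (h2 : 2 ≤ n) (hp : p.Prime) (hpn : p ∣ n)
    (hpi : p < 2 ^ (i + 1)) : 2 ^ i ∈ W n := by
  have h5 : n * (p + 1) ≤ p * sg n := by
    by_cases hpe : p = n
    · subst hpe
      rw [sg_prime hp]
    · obtain ⟨c, hc⟩ := hpn
      have hc0 : 0 < c := by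
        rcases Nat.eq_zero_or_pos c with h | h
        · subst h; omega
        · exact h
      have hc1 : c ≠ 1 := by
        rintro rfl; exact hpe (by rw [hc, mul_one])
      have hcn : c ≠ n := by
        intro h
        rw [← h] at hc
        have := hp.two_le
        nlinarith
      have h6 := sg_ge' h2 (d := c) ⟨p, by rw [hc]; ring⟩ hc1 hcn
      calc n * (p + 1) = p * n + n := by ring
        _ = p * n + p * c := by rw [← hc]
        _ = p * (n + c) := by ring
        _ ≤ p * sg n := Nat.mul_le_mul_left _ (by omega)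
  rw [two_pow_mem hn]
  obtain ⟨u, hu⟩ : ∃ u, 2 ^ (i + 1) = p + 1 + u := ⟨2 ^ (i + 1) - (p + 1), by omega⟩
  rw [hu]
  have h8 : n ≤ sg n := by have := sg_ge h2; omega
  have h9 : u * n ≤ u * sg n := Nat.mul_le_mul_left _ h8
  nlinarith

theorem result (n : ℕ) (hn : Odd n) (h3 : 3 ≤ n) :
    IsLeast {k | 1 ≤ k ∧ sg k = 2 * k - 1 ∧ n ≤ (2 * k - 1) * (sg n - n)} (a n) := by
  have h2 : 2 ≤ n := by omega
  have hs := sg_ge h2
  obtain ⟨s, hs'⟩ : ∃ s, sg n = n + s := ⟨sg n - n, by omega⟩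
  have hsub : sg n - n = s := by omega
  obtain ⟨j, _, _, hap, _⟩ := structure_odd hn h2
  have ham := a_mem h2
  constructor
  · refine ⟨ham.1, by omega, ?_⟩
    obtain ⟨t, ht⟩ : ∃ t, 2 * a n - 1 = t := ⟨_, rfl⟩
    have h4 := ham.2.2.trans (sg_mul_le (a n) n)
    have h5 : sg (a n) = t := by omega
    have h6 : 2 * a n = t + 1 := by have := ham.1; omega
    have h7 : 2 * (a n * n) = (t + 1) * n := by rw [← h6]; ring
    rw [h7, h5, hs'] at h4
    rw [ht, hsub]
    nlinarith
  · rintro k ⟨h1, h4, h5⟩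
    obtain ⟨t, ht⟩ : ∃ t, 2 * k - 1 = t := ⟨_, rfl⟩
    have h6 : 2 * k = t + 1 := by omega
    by_cases hc : Nat.Coprime k n
    · apply a_le
      refine ⟨h1, by omega, ?_⟩
      rw [sg_coprime hc, h4, ht, hs']
      rw [ht, hsub] at h5
      have h7 : 2 * (k * n) = (t + 1) * n := by rw [← h6]; ring
      rw [h7]
      nlinarith
    · rw [Nat.coprime_iff_gcd_eq_one] at hc
      obtain ⟨p, hp, hpd⟩ := Nat.exists_prime_and_dvd hc
      have hpk : p ≤ k := Nat.le_of_dvd h1 (hpd.trans (Nat.gcd_dvd_left _ _))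
      have hlog : 2 ^ (Nat.log 2 k) ≤ k := Nat.pow_log_le_self 2 (by omega)
      have hlog2 : k < 2 ^ (Nat.log 2 k + 1) := Nat.lt_pow_succ_log_self (by norm_num) k
      have h8 := prime_factor_mem hn h2 hp (hpd.trans (Nat.gcd_dvd_right _ _))
        (lt_of_le_of_lt hpk hlog2)
      exact (a_le h8).trans hlog

end Pool.Agent.Results.MP_c5ead3_nt.ExplicitFormula
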