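import Pool.Agent.U796.AP.Square

/-!
# The assertion holds for all integers with a prime factor below 16384
-/

namespace Pool.Agent.Results.MP_c5ead3_nt.SmallPrimeFactor

open Pool.Agent.U796.AP

theorem result (n : ℕ) (h2 : 2 ≤ n)
    (h : (∃ p, p.Prime ∧ p ∣ n ∧ p < 16384) ∨ n ≤ 16383 * (sg n - n)) :
    a n = 1 ∨ a n = 3 ∨ ∃ j, a n = 2 ^ j := by
  have hs := sg_ge h2
  have hmain : n ≤ 16383 * (sg n - n) := by
    rcases h with ⟨p, hp, ⟨c, hc⟩, hlt⟩ | h
    · have hc0 : 0 < c := by
        rcases Nat.eq_zero_or_pos c with h | h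
        · subst h; omega
        · exact h
      have hcn : c ≠ n := by
        intro h
        rw [← h] at hc
        have := hp.two_le
        nlinarith
      have h5 : c ≤ sg n - n := by
        by_cases hc1 : c = 1
        · omega
        · have h6 := sg_ge' h2 (d := c) ⟨p, by rw [hc]; ring⟩ hc1 hcn
          omega
      calc n = p * c := hc
        _ ≤ 16383 * (sg n - n) := Nat.mul_le_mul (by omega) h5
    · exact h
  rcases Nat.even_or_odd n with he | ho
  · have h3 : a n ≤ 3 := by
      rcases even_mem he h2 with h4 | h4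
      · exact (a_le h4).trans (by norm_num)
      · exact a_le h4
    have h1 := (a_mem h2).1
    have h5 : a n = 1 ∨ a n = 2 ∨ a n = 3 := by omega
    rcases h5 with h5 | h5 | h5
    · exact Or.inl h5
    · exact Or.inr (Or.inr ⟨1, by rw [h5]; rfl⟩)
    · exact Or.inr (Or.inl h5)
  · right; right
    have h4 : 2 ^ 13 ∈ W n := by
      rw [two_pow_mem ho]
      norm_num
      omega
    have h5 := a_le h4
    norm_num at h5
    obtain ⟨j, _, _, hap, _⟩ := structure_odd ho h2
    exact small (a_mem h2).1 hap (by omega)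

end Pool.Agent.Results.MP_c5ead3_nt.SmallPrimeFactor
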